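import Pool.Agent.W_5d512e_alt.Final
import Pool.Agent.W_MP_5d512e_dic.Easy

/-!
# Every polynomial time word is a filter of the word of a dgsm whose letters act by maps in `F`
-/

set_option autoImplicit false

namespace Pool.Agent.W_5d512e_dic2

open Pool.Agent.W_MP_5d512e_h33 Pool.Agent.W_5d512e_h80 Pool.Agent.W_MP_5d512e_dic
  Pool.Agent.W_5d512e_alt
open Pool.Agent.W_MP_5d512e_h83 (ems ems_lim ems_len ems_st)

/-- The word `w` is a filter of the word of a dgsm with states `Fin p`, letters acting by maps in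
`F`, outputs of length at most two, and a short queue. -/
def Act (p k : ℕ) (F : Set (Fin p → Fin p)) {d : ℕ} (w : ℕ → Fin d) : Prop :=
  ∃ (D : ℕ) (Z : Sys (Fin p) (Fin D)), (∀ x, (fun s => Z.δ s x) ∈ F) ∧
    (∀ s x, (Z.out s x).length ≤ 2) ∧
    (∃ C, ∀ i, Z.K i ^ (k + 1) ≤ C * (i + 1)) ∧ FilterOf Z.lim w

/-- As `QQ_of_H`. -/
theorem act_swap {p k : ℕ} {F : Set (Fin p → Fin p)} {e a b : Fin p → Fin p} (he : e ∈ F)
    (ha : a ∈ F) (hb : b ∈ F) {s t : Fin p} (hst : s ≠ t) (es : e s = s) (et : e t = t)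
    (as : a s = t) (bt' : b t = s) {p' d : ℕ} (Y : Sys (Fin p') (Fin d)) :
    Act p k F Y.lim := by
  obtain ⟨d, rfl⟩ : ∃ d', d = d' + 1 := ⟨d - 1, by have := Y.a.pos; omega⟩
  obtain ⟨M, hM⟩ := Y.exists_bound
  have hu : Y.u.length ≤ M := by
    have := hM Y.q0 Y.a
    rw [Y.ha, List.length_cons] at this
    omega
  obtain ⟨D, ⟨eq⟩⟩ :=
    Finite.exists_equiv_fin (Lt2 (Gt (Fin p') d M (k + 1)) (Lb d (k + 1)) 4)
  have hfilter := filterOf_XS Y M (k + 1) hM hu eq
  obtain ⟨D1, hD1⟩ := XS_growth Y M (k + 1) hM hu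
  set X := (XS Y M (k + 1)).map eq with hX
  have hXK : X.K = (XS Y M (k + 1)).K := Sys.map_K _ _
  let θ : Option Bool → Fin p := fun q =>
    match q with
    | some true => t
    | _ => s
  let ρ : Fin p → Option Bool := fun r => if r = t then some true else some false
  let ac : Lt2 (Gt (Fin p') d M (k + 1)) (Lb d (k + 1)) 4 → Ac :=
    (mac (M := M) (e := k + 1) Y).ac
  let δ2 : Fin p → Fin D → Fin p := fun r x =>
    match ac (eq.symm x) with
    | .id => e r
    | .up => a r
    | .dn => b r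
  have hρ : ∀ q : Option Bool, q ≠ none → ρ (θ q) = q := by
    intro q hq
    match q with
    | none => exact absurd rfl hq
    | some true => simp [ρ, θ]
    | some false => simp [ρ, θ, hst]
  have h0 : ρ (θ X.q0) = X.q0 := hρ _ (by
    show (some false : Option Bool) ≠ none
    simp)
  have halive : ∀ i, (X.st i).1 ≠ none := by
    intro i
    rw [hX, Sys.map_st]
    exact XS_alive Y M (k + 1) hM hu i
  have hδ : ∀ q x, q ≠ none → X.δ q x ≠ none → δ2 (θ q) x = θ (X.δ q x) := by
    intro q x hq hq'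
    have e1 : X.δ q x = act (ac (eq.symm x)) q := rfl
    rw [e1] at hq' ⊢
    show (match ac (eq.symm x) with
      | .id => e (θ q)
      | .up => a (θ q)
      | .dn => b (θ q)) = _
    revert hq'
    generalize ac (eq.symm x) = y
    intro hq'
    match q, y with
    | none, _ => exact absurd rfl hq
    | some true, .id => exact et
    | some false, .id => exact es
    | some true, .up => exact absurd rfl hq'
    | some false, .up => exact as
    | some true, .dn => exact bt'
    | some false, .dn => exact absurd rfl hq'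
  have h00 : (some false : Option Bool) ≠ none := by simp
  rw [← tra_lim X θ ρ δ2 h0 (fun q => q ≠ none) h00 halive hρ hδ] at hfilter
  refine ⟨D, tra X θ ρ δ2 h0, ?_, ?_, ⟨D1, fun i => ?_⟩, hfilter⟩
  · intro x
    show (fun r => (match ac (eq.symm x) with
      | .id => e r
      | .up => a r
      | .dn => b r)) ∈ F
    cases ac (eq.symm x) with
    | id => exact he
    | up => exact ha
    | dn => exact hb
  · intro r x
    show (X.out (ρ r) x).length ≤ 2
    simp only [hX, Sys.map, List.length_map]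
    exact RS2.ot_len _ _ _ _ _
  · have e1 : (tra X θ ρ δ2 h0).K i = X.K i := by
      rw [Sys.K, tra_st X θ ρ δ2 h0 (fun q => q ≠ none) h00 halive hρ hδ, Sys.K]
    rw [e1, hXK]
    exact hD1 i

/-- As `log_of_nsys`. -/
theorem filterOf_nsys {p d : ℕ} (Y : Sys (Fin (p + 1)) (Fin d)) {D : ℕ}
    (e : Sy p (Fin d) ≃ Fin D) : FilterOf ((nsys Y).map e).lim Y.lim := by
  obtain ⟨M, hM⟩ := Y.exists_bound
  have hget : ∀ (m i : ℕ) (hi : i < (((nsys Y).map e).T m).length),
      (((nsys Y).map e).T m)[i] = ((nsys Y).map e).lim i :=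
    fun m i hi => ((nsys Y).map e).T_getElem hi
  have hT : ∀ n, (((nsys Y).map e).T (tm Y n)).filterMap (fun x => Sy.ψ Y.a (e.symm x)) =
      Y.T n := by
    intro n
    rw [Sys.map_T, List.filterMap_map, ← T_tm Y n]
    congr 1
    funext x
    simp
  refine filterOf_of_poly (fun x => Sy.ψ Y.a (e.symm x))
    (Y.K 0 + 1 + (Y.K 0 + M) + (p + 2) * (Y.K 0 + M) + M + 3) 2 ?_ ?_
  · intro N j hj
    have h1 : (List.range N).map ((nsys Y).map e).lim <+: ((nsys Y).map e).T (tm Y N) := by
      have hl := ((nsys Y).map e).T_length (tm Y N)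
      have h2 := le_tm Y N
      have h3 : ((nsys Y).map e).T (tm Y N) =
          (List.range (((nsys Y).map e).T (tm Y N)).length).map ((nsys Y).map e).lim :=
        out_eq (hget _)
      rw [h3]
      exact prefix_range _ (by omega)
    have h2 := h1.filterMap (fun x => Sy.ψ Y.a (e.symm x))
    rw [hT] at h2
    rw [h2.getElem hj]
    exact Y.T_getElem _
  · intro n
    have hlen : (((nsys Y).map e).T (tm Y n)).length ≤
        (Y.K 0 + 1 + (Y.K 0 + M) + (p + 2) * (Y.K 0 + M) + M + 3) * (n + 1) ^ 2 := by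
      rw [((nsys Y).map e).T_length, Sys.map_K, K_tm]
      have h1 := tm_le Y hM n
      have h2 := K_le Y hM n
      have h3 : Y.K n ≤ (Y.K 0 + M) * (n + 1) := by nlinarith [Nat.zero_le (Y.K 0 * n)]
      have h4 : n * ((p + 2) * Y.K n + M + 3) ≤
          n * ((p + 2) * ((Y.K 0 + M) * (n + 1)) + M + 3) := by
        apply Nat.mul_le_mul_left
        have := Nat.mul_le_mul_left (p + 2) h3
        omega
      have h5 : tm Y n + 1 + Y.K n ≤ Y.K 0 +
          n * ((p + 2) * ((Y.K 0 + M) * (n + 1)) + M + 3) + 1 + (Y.K 0 + M) * (n + 1) := by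
        omega
      refine h5.trans ?_
      generalize Y.K 0 = a
      generalize ha : (a + M) = b
      generalize (p + 2) = c
      have : (a + 1 + b + c * b + M + 3) * (n + 1) ^ 2 =
          a + n * (c * (b * (n + 1)) + M + 3) + 1 + b * (n + 1) +
          (a * (n ^ 2 + 2 * n) + (n ^ 2 + 2 * n) + b * (n ^ 2 + n) + c * b * (n + 1) +
            (M + 3) * (n ^ 2 + n + 1)) := by ring
      rw [this]
      exact Nat.le_add_right _ _
    have h1 := prefix_iff_range (W := ((nsys Y).map e).lim)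
      (hget (tm Y n)) _ hlen
    have h2 := (h1.filterMap (fun x => Sy.ψ Y.a (e.symm x))).length_le
    rw [hT, Y.T_length] at h2
    omega

/-- As `QQ_of_R`. -/
theorem act_reset {p k : ℕ} {F : Set (Fin p → Fin p)} {x y : Fin p → Fin p} (hx : x ∈ F)
    (hy : y ∈ F) {s t : Fin p} (hst : s ≠ t) (xs : x s = s) (xt : x t = s)
    (ys : y s = t) (yt : y t = t) {p' d : ℕ} (Y : Sys (Fin p') (Fin d)) :
    Act p k F Y.lim := by
  obtain ⟨d, rfl⟩ : ∃ d', d = d' + 1 := ⟨d - 1, by have := Y.a.pos; omega⟩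
  obtain ⟨M, hM⟩ := Y.exists_bound
  have hu : Y.u.length ≤ M := by
    have := hM Y.q0 Y.a
    rw [Y.ha, List.length_cons] at this
    omega
  obtain ⟨D, ⟨eq⟩⟩ :=
    Finite.exists_equiv_fin (Lt2 (Gt (Fin p') d M (k + 1)) (Lb d (k + 1)) 4)
  have hfilter := filterOf_XS Y M (k + 1) hM hu eq
  obtain ⟨D1, hD1⟩ := XS_growth Y M (k + 1) hM hu
  set X := (XS Y M (k + 1)).map eq with hX
  have hXK : X.K = (XS Y M (k + 1)).K := Sys.map_K _ _
  obtain ⟨n, ⟨es⟩⟩ := Finite.exists_equiv_fin (Option Bool)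
  obtain ⟨n, rfl⟩ : ∃ n', n = n' + 1 := ⟨n - 1, by have := (es none).pos; omega⟩
  have hlen : ∀ q z, (X.out q z).length ≤ 2 := by
    intro q z
    simp only [hX, Sys.map, List.length_map]
    exact RS2.ot_len _ _ _ _ _
  rw [← ems_lim X es es.injective (fun r z => es (X.δ (es.symm r) z)) (by
    intro q z
    simp)] at hfilter
  set X2 := ems X es es.injective (fun r z => es (X.δ (es.symm r) z)) with hX2
  have hK2 : ∀ i, X2.K i = X.K i := by
    intro i
    rw [Sys.K, ems_st X es es.injective (fun r z => es (X.δ (es.symm r) z)) (by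
      intro q z
      simp), Sys.K]
  have hlen2 : ∀ q z, (X2.out q z).length ≤ 2 := ems_len _ _ _ _ hlen
  obtain ⟨D3, hD3⟩ := nsys_growth X2 (k := k + 1) (D := D1) hlen2 (by
    intro i
    rw [hK2, hXK]
    exact hD1 i)
  obtain ⟨D2, ⟨eq2⟩⟩ := Finite.exists_equiv_fin (Sy n (Fin D))
  have hfil2 := filterOf_nsys X2 eq2
  let θ : Fin 2 → Fin p := fun b => if b = 0 then s else t
  have hθ : Function.Injective θ := by
    intro a b hab
    by_cases ha : a = 0 <;> by_cases hb : b = 0
    · rw [ha, hb]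
    · simp only [θ, ha, hb, if_true, if_false] at hab
      exact absurd hab hst
    · simp only [θ, ha, hb, if_true, if_false] at hab
      exact absurd hab.symm hst
    · omega
  have hδ : ∀ q z, (fun r z => if Sy.β (eq2.symm z) = 0 then x r else y r) (θ q) z =
      θ (((nsys X2).map eq2).δ q z) := by
    intro q z
    have e1 : ((nsys X2).map eq2).δ q z = Sy.β (eq2.symm z) := rfl
    rw [e1]
    by_cases hq : q = 0 <;> by_cases hz : Sy.β (eq2.symm z) = 0
    · simp [θ, hq, hz, xs]
    · simp [θ, hq, hz, ys]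
    · simp [θ, hq, hz, xt]
    · simp [θ, hq, hz, yt]
  rw [← ems_lim ((nsys X2).map eq2) θ hθ
    (fun r z => if Sy.β (eq2.symm z) = 0 then x r else y r) hδ] at hfil2
  refine ⟨D2, _, ?_, ?_, ⟨D3, fun i => ?_⟩, FilterOf.trans hfil2 hfilter⟩
  · intro z
    show (fun r => if Sy.β (eq2.symm z) = 0 then x r else y r) ∈ F
    by_cases hz : Sy.β (eq2.symm z) = 0
    · simp only [hz, if_true]
      exact hx
    · simp only [hz, if_false]
      exact hy
  · apply ems_len
    intro q z
    have : (((nsys X2).map eq2).out q z).length = ((nsys X2).out q (eq2.symm z)).length := by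
      simp [Sys.map]
    rw [this]
    apply nsys_len
    · exact hlen2
    · show (X.u).length ≤ 1
      simp [hX, Sys.map, XS, RS2.sys]
  · have e1 : (ems ((nsys X2).map eq2) θ hθ
        (fun r z => if Sy.β (eq2.symm z) = 0 then x r else y r)).K i =
        ((nsys X2).map eq2).K i := by
      rw [Sys.K, ems_st ((nsys X2).map eq2) θ hθ
        (fun r z => if Sy.β (eq2.symm z) = 0 then x r else y r) hδ, Sys.K]
    rw [e1, Sys.map_K]
    exact hD3 i

/-- The words generated in polynomial time are the filters of the words of the dgsm's whose letters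
act by maps in the hard set `F`. -/
theorem exists_iterates {p k : ℕ} {F : Set (Fin p → Fin p)} {d : ℕ} {w : ℕ → Fin d}
    (h : Act p k F w) :
    ∃ (D : ℕ) (δ : Fin p → Fin D → Fin p) (q0 : Fin p) (out : Fin p → Fin D → List (Fin D))
      (a : Fin D) (W : ℕ → Fin D), Iterates δ q0 out a W ∧ (∀ x, (fun s => δ s x) ∈ F) ∧
      (∀ s x, (out s x).length ≤ 2) ∧
      (∃ C, ∀ n, ((trans δ q0 out)^[n] [a]).length ^ k ≤ C * (n + 1) ^ (k + 1)) ∧
      FilterOf W w := by
  obtain ⟨D, Z, h1, h2, ⟨C, hC⟩, h3⟩ := h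
  exact ⟨D, Z.δ, Z.q0, Z.out, Z.a, Z.lim, Z.iterates, h1, h2, ⟨C, fun n => growth_of_K Z hC n⟩, h3⟩

theorem act_of_polyTime {p k : ℕ} {F : Set (Fin p → Fin p)} (hh : HasReset F ∨ HasSwap F) {d : ℕ}
    {w : ℕ → Fin d} (hw : PolyTime w) : Act p k F w := by
  obtain ⟨p', D, Y, hY⟩ := sys_of_polyTime hw
  have h1 : Act p k F Y.lim := by
    rcases hh with ⟨x, hx, y, hy, s, t, hst, h1, h2, h3, h4⟩ |
      ⟨e, he, f, hf, g, hg, s, t, hst, h1, h2, h3, h4⟩
    · exact act_reset hx hy hst h1 h2 h3 h4 Y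
    · exact act_swap he hf hg hst h1 h2 h3 h4 Y
  obtain ⟨D', Z, h2, h3, h4, h5⟩ := h1
  exact ⟨D', Z, h2, h3, h4, FilterOf.trans h5 hY⟩

end Pool.Agent.W_5d512e_dic2
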