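import Pool.Agent.W_5d512e_dic2.Act

/-!
# The dichotomy for the expressive power
-/

set_option autoImplicit false

namespace Pool.Agent.W_5d512e_dic2

open Pool.Agent.W_MP_5d512e_h33 Pool.Agent.W_5d512e_h80 Pool.Agent.W_MP_5d512e_dic
  Pool.Agent.W_5d512e_alt

theorem main (p k : ℕ) (F : Set (Fin p → Fin p)) (hF : ∀ f ∈ F, ∀ g ∈ F, f ∘ g ∈ F) :
    (HasReset F ∨ HasSwap F →
      (∀ (d : ℕ) (w : ℕ → Fin d), PolyTime w ↔
        ∃ (D : ℕ) (δ : Fin p → Fin D → Fin p) (q0 : Fin p)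
          (out : Fin p → Fin D → List (Fin D)) (a : Fin D) (W : ℕ → Fin D),
          Iterates δ q0 out a W ∧ (∀ x, (fun s => δ s x) ∈ F) ∧
          (∀ s x, (out s x).length ≤ 2) ∧
          (∃ C, ∀ n, ((trans δ q0 out)^[n] [a]).length ^ k ≤ C * (n + 1) ^ (k + 1)) ∧
          FilterOf W w) ∧
      ((∀ (d p : ℕ) (δ : Fin p → Fin d → Fin p) (q0 : Fin p)
        (out : Fin p → Fin d → List (Fin d)) (a : Fin d) (w : ℕ → Fin d),
        Iterates δ q0 out a w → LogSpace w) ↔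
      (∀ (d : ℕ) (δ : Fin p → Fin d → Fin p) (q0 : Fin p)
        (out : Fin p → Fin d → List (Fin d)) (a : Fin d) (w : ℕ → Fin d),
        Iterates δ q0 out a w → (∀ x, (fun s => δ s x) ∈ F) →
        (∀ s x, (out s x).length ≤ 2) →
        (∃ C, ∀ n, ((trans δ q0 out)^[n] [a]).length ^ k ≤ C * (n + 1) ^ (k + 1)) →
        LogSpace w))) ∧
    (¬ (HasReset F ∨ HasSwap F) →
      ∀ (d : ℕ) (δ : Fin p → Fin d → Fin p) (q0 : Fin p)
        (out : Fin p → Fin d → List (Fin d)) (a : Fin d) (w : ℕ → Fin d),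
        Iterates δ q0 out a w → (∀ x, (fun s => δ s x) ∈ F) →
        LogSpace w ∧ ∀ (d' : ℕ) (v : ℕ → Fin d'), FilterOf w v → LogSpace v) := by
  constructor
  · intro hh
    refine ⟨fun d w => ⟨fun hw => exists_iterates (act_of_polyTime hh hw), ?_⟩, ?_, ?_⟩
    · rintro ⟨D, δ, q0, out, a, W, hI, -, -, -, hf⟩
      exact PolyTime.filter hf (polyTime_of_iterates hI)
    · intro h d δ q0 out a w hI _ _ _
      exact h d p δ q0 out a w hI
    · intro h d p' δ q0 out a w hI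
      obtain ⟨D, δ', q0', out', a', W, h1, h2, h3, h4, h5⟩ :=
        exists_iterates (act_of_polyTime (k := k) hh (polyTime_of_iterates hI))
      exact logSpace_filter h5 (h D δ' q0' out' a' W h1 h2 h3 h4)
  · intro hh d δ q0 out a w hI hact
    rw [not_or] at hh
    have hw : LogSpace w := by
      obtain ⟨Y, hY, hw⟩ := exists_sys hI
      rw [← hw]
      exact easy Y hF (by rw [hY]; exact hact) hh.1 hh.2
    exact ⟨hw, fun d' v hv => logSpace_filter hv hw⟩

end Pool.Agent.W_5d512e_dic2
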