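import Pool.Agent.W_5d512e_post.Final
import Pool.Agent.W_5d512e_alt.Final

/-!
# The dichotomy by gates for the expressive power
-/

set_option autoImplicit false

namespace Pool.Agent.W_5d512e_post

open Pool.Agent.W_MP_5d512e_h33 Pool.Agent.W_5d512e_h57 Pool.Agent.W_5d512e_h80
open Pool.Agent.W_5d512e_alt (PolyTime sys_of_polyTime polyTime_of_iterates)

variable {B : ∀ n : ℕ, Set ((Fin n → Bool) → Bool)}

/-- As `hard_case`. -/
theorem hard_filter (hB : ¬ Easy B) {d p : ℕ} {δ : Fin p → Fin d → Fin p} {q0 : Fin p}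
    {out : Fin p → Fin d → List (Fin d)} {a : Fin d} {w : ℕ → Fin d}
    (hI : Iterates δ q0 out a w) :
    ∃ (D P : ℕ) (δ' : Fin P → Fin D → Fin P) (q' : Fin P)
      (out' : Fin P → Fin D → List (Fin D)) (a' : Fin D) (W : ℕ → Fin D),
      Iterates δ' q' out' a' W ∧ Cellular B δ' q' out' a' ∧ FilterOf W w := by
  obtain ⟨Γ, hΓ, g, c, y, φ, hφ⟩ := sim hI
  obtain ⟨X, hX⟩ := exists_pas g c y
  obtain ⟨l, e, G, he, hG, heG⟩ := enc hB Γ g
  obtain ⟨d', p', S, L, a', m, δ', q0', out', hM, hW⟩ :=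
    exists_machine (k := l) (l := l) (fun z i => z (Fin.natAdd l i)) G (e c) (e y)
  -- the array of the coded automaton
  have hR : Run (k := l) (l := l) (fun z i => z (Fin.natAdd l i)) G (e c) (e y)
      (fun r j => if j = 0 then e c else e (X (r + 1) (j - 1))) (fun r j => e (X r j)) := by
    refine ⟨fun j => by simp only [hX.x0], ?_, fun r => by simp, ?_⟩
    · intro r j
      cases j with
      | zero => simp only [if_true, heG, hX.x1]
      | succ j =>
        simp only [Nat.add_eq_zero_iff, one_ne_zero, and_false, if_false, Nat.add_sub_cancel, heG,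
          hX.x2]
    · intro r j
      funext i
      simp only [Nat.add_eq_zero_iff, one_ne_zero, and_false, if_false, Nat.add_sub_cancel,
        Fin.append_right]
  have hI' := hW _ _ hR
  have hwe : wordOf a' m L (fun r j => e (X r j)) = wordOf a' m (fun z => L (e z)) X := by
    funext t
    cases t with
    | zero => rfl
    | succ t => rfl
  rw [hwe] at hI'
  exact ⟨_, _, _, _, _, _, _, hI', ⟨l, G, e c, e y, S, L, m, hM, hG⟩,
    filterOf_wordOf (φ := φ) (fun u v huv => he (hM.injL huv)) hM.ne.1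
      (fun z => hM.ne.2 _) (hφ X hX)⟩

theorem hard_polyTime (hB : ¬ Easy B) {d : ℕ} (w : ℕ → Fin d) : PolyTime w ↔
    ∃ (D P : ℕ) (δ' : Fin P → Fin D → Fin P) (q' : Fin P)
      (out' : Fin P → Fin D → List (Fin D)) (a' : Fin D) (W : ℕ → Fin D),
      Iterates δ' q' out' a' W ∧ Cellular B δ' q' out' a' ∧ FilterOf W w := by
  constructor
  · intro hw
    obtain ⟨p, D, Y, hY⟩ := sys_of_polyTime hw
    obtain ⟨D', P, δ', q', out', a', W, h1, h2, h3⟩ := hard_filter hB Y.iterates
    exact ⟨D', P, δ', q', out', a', W, h1, h2, Pool.Agent.W_5d512e_alt.FilterOf.trans h3 hY⟩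
  · rintro ⟨D', P, δ', q', out', a', W, h1, -, h3⟩
    exact Pool.Agent.W_5d512e_alt.PolyTime.filter h3 (polyTime_of_iterates h1)

end Pool.Agent.W_5d512e_post
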